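import Pool.Agent.R562.RS.Sse

set_option autoImplicit false

/-!
# Reductions to small-set expansion whose output depends on few threshold gates

The definitions used in the statement are `sens` and `avgSens` (average sensitivity) and `parity` in
`Pool/Agent/R562/RS/Core.lean`, `Unate` in `Pool/Agent/R562/RS/Unate.lean`, and `Lists`, `cut`,
`SseYes`, `SseNo`, `SseCorrect`, `SseReduction` in `Pool/Agent/R562/RS/Sse.lean`.

A reduction from a Boolean function `f` of `N` bits to the gap problem of small-set expansion
computes adjacency lists of a `d`-regular graph, whose vertices are encoded by `b` bits each. If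
every bit of the lists is an arbitrary function of the values of `m` unate functions of the input,
for example `m` threshold gates with arbitrary real weights, then
`b m √N ≥ (1 - 2 e) (1 - ε - η) (k / n) avgSens f`, where `e` is the error probability of the
reduction and `k / n` is the density of the sets. For parity and graphs with `N ^ O(1)` vertices
this means `m ≥ c √N / log N`. (By contrast `N` threshold gates are enough for parity, and `O(√N)`
for most inputs.)

Proof: A yes instance and a no instance differ in a fraction `(1 - ε - η) k / n` of the entries. So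
some bit has average sensitivity at least `(1 - 2 e) (1 - ε - η) (k / n) avgSens f / b`, but the
average sensitivity of a unate function is at most `√N`.
-/

namespace Pool.Agent.Results.MP_8d8c46_lc.ThresholdGates

open Pool.Agent.R562.RS

theorem result :
    (∀ (N m d k b : ℕ) (V Ω : Type) [Fintype V] [Fintype Ω] [Nonempty Ω] (ε η e : ℝ)
      (f : (Fin N → Bool) → Bool) (nb : Ω → (Fin N → Bool) → V → Fin d → V)
      (code : V → Fin b → Bool),
      1 ≤ d → 1 ≤ k → k ≤ Fintype.card V → ε + η ≤ 1 → Function.Injective code →
      SseReduction f nb k ε η e →
      (∀ ω v j l, ∃ (g : Fin m → (Fin N → Bool) → Bool) (G : (Fin m → Bool) → Bool),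
        (∀ i, Unate (g i)) ∧ ∀ x, code (nb ω x v j) l = G fun i => g i x) →
      (1 - 2 * e) * ((1 - ε - η) * (k / Fintype.card V)) * avgSens f ≤ b * (m * Real.sqrt N)) ∧
    (∀ (N : ℕ) (w : Fin N → ℝ) (θ : ℝ),
      Unate (fun x : Fin N → Bool => decide (θ ≤ ∑ i, if x i = true then w i else 0))) ∧
    ∀ N : ℕ, avgSens (parity N) = N := by
  refine ⟨?_, fun N w θ => unate_threshold w θ, avgSens_parity⟩
  intro N m d k b V Ω _ _ _ ε η e f nb code hd hk hkV hεη hcode hr hF
  refine sse_avg hd hk hkV hεη hr fun ω v j => ?_
  rw [mul_assoc]
  refine sens_encode _ code hcode fun l => ?_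
  obtain ⟨g, G, hg, hG⟩ := hF ω v j l
  have h1 : (fun x => code (nb ω x v j) l) = fun x => G fun i => g i x := funext hG
  rw [h1]
  exact sens_few_unate g hg G

end Pool.Agent.Results.MP_8d8c46_lc.ThresholdGates
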